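import Mathlib

/-!
# Balmer spectra of finite-dimensional Hopf algebras and the Drinfeld double

Let `k` be a field and `H` a finite-dimensional Hopf algebra over `k`.

* `FDMod k A` : finite-dimensional left modules over a `k`-algebra `A`.
* `FDMod.tensor` : the tensor product of two modules over a bialgebra (acting through the
  comultiplication), `FDMod.unit` the trivial module.
* `FDMod.IsProjective` : projective objects of the category of finite-dimensional modules.
* `IsTensorIdeal S` : the class `S` of finite-dimensional `H`-modules is (the class of objects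
  of) a thick two-sided tensor ideal of the stable category `stmod(H)`.  The exact triangles of
  `stmod(H)` are those which come from short exact sequences of modules, and the zero objects are
  the projectives; so a thick tensor ideal is the same thing as a class of modules which contains
  the projectives, is closed under direct summands, has the two-out-of-three property
  for short exact sequences, and is closed under tensoring on both sides with any module.
* `Spc k H` : the Balmer spectrum of `stmod(H)`, the set of prime ideals.
* `Double k H` : the Drinfeld double `D(H)`, by generators and relations.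
* `balmerMap k H` : the map `f`, sending a prime `P` to `F⁻¹(P)`, the class of all
  finite-dimensional `D(H)`-modules whose restriction to `H` lies in `P`.
-/

open scoped TensorProduct

namespace Pool.Agent.R709.BS

universe u

/-- A finite-dimensional left module over the `k`-algebra `A`: a finite-dimensional vector space
`V` with an algebra homomorphism `act : A → End_k(V)`. -/
structure FDMod (k A : Type u) [Field k] [Ring A] [Algebra k A] where
  /-- the underlying vector space -/
  V : Type u
  [grp : AddCommGroup V]
  [vec : Module k V]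
  [fin : FiniteDimensional k V]
  /-- the action -/
  act : A →ₐ[k] Module.End k V

attribute [instance] FDMod.grp FDMod.vec FDMod.fin

namespace FDMod

section Algebra

variable {k A : Type u} [Field k] [Ring A] [Algebra k A]

/-- `A`-linear maps. -/
def IsHom (M N : FDMod k A) (f : M.V →ₗ[k] N.V) : Prop :=
  ∀ (a : A) (v : M.V), f (M.act a v) = N.act a (f v)

/-- `P` is a projective object of the category of finite-dimensional `A`-modules. -/
def IsProjective (P : FDMod k A) : Prop :=
  ∀ (M N : FDMod k A) (g : M.V →ₗ[k] N.V) (f : P.V →ₗ[k] N.V),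
    IsHom M N g → Function.Surjective g → IsHom P N f →
      ∃ h : P.V →ₗ[k] M.V, IsHom P M h ∧ g ∘ₗ h = f

/-- `0 → A₁ → A₂ → A₃ → 0` is a short exact sequence of `A`-modules. -/
def IsSES (M₁ M₂ M₃ : FDMod k A) (i : M₁.V →ₗ[k] M₂.V) (p : M₂.V →ₗ[k] M₃.V) : Prop :=
  IsHom M₁ M₂ i ∧ IsHom M₂ M₃ p ∧ Function.Injective i ∧ Function.Exact i p ∧
    Function.Surjective p

/-- `M` is (isomorphic to) a direct summand of `N`. -/
def IsSummand (M N : FDMod k A) : Prop :=
  ∃ (i : M.V →ₗ[k] N.V) (p : N.V →ₗ[k] M.V), IsHom M N i ∧ IsHom N M p ∧ p ∘ₗ i = LinearMap.id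

/-- Restriction of a module along a homomorphism of algebras. -/
def restrict {B : Type u} [Ring B] [Algebra k B] (φ : B →ₐ[k] A) (M : FDMod k A) :
    FDMod k B where
  V := M.V
  act := M.act.comp φ

end Algebra

section Bialgebra

variable {k H : Type u} [Field k] [Ring H] [Bialgebra k H]

/-- The tensor product `M ⊗_k N`, on which `H` acts through the comultiplication. -/
noncomputable def tensor (M N : FDMod k H) : FDMod k H where
  V := M.V ⊗[k] N.V
  act := (Module.endTensorEndAlgHom (R := k) (A := k) (M := M.V) (N := N.V)).comp
    ((Algebra.TensorProduct.map M.act N.act).comp (Bialgebra.comulAlgHom k H))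

/-- The trivial module `k`, on which `H` acts through the counit. -/
noncomputable def unit (k H : Type u) [Field k] [Ring H] [Bialgebra k H] : FDMod k H where
  V := k
  act := (Algebra.lmul k k).comp (Bialgebra.counitAlgHom k H)

end Bialgebra

end FDMod

open FDMod

section Spectrum

variable {k H : Type u} [Field k] [Ring H] [Bialgebra k H]

/-- `S` is a thick two-sided tensor ideal of `stmod(H)`. -/
structure IsTensorIdeal (S : Set (FDMod k H)) : Prop where
  /-- the projective modules (the zero objects of `stmod(H)`) belong to `S` -/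
  projective_mem : ∀ P : FDMod k H, P.IsProjective → P ∈ S
  /-- `S` is closed under direct summands (in particular, under isomorphism) -/
  summand_mem : ∀ M N : FDMod k H, IsSummand M N → N ∈ S → M ∈ S
  /-- two out of three -/
  mem_of_left_of_middle : ∀ (M₁ M₂ M₃ : FDMod k H) (i : M₁.V →ₗ[k] M₂.V)
    (p : M₂.V →ₗ[k] M₃.V), IsSES M₁ M₂ M₃ i p → M₁ ∈ S → M₂ ∈ S → M₃ ∈ S
  /-- two out of three -/
  mem_of_left_of_right : ∀ (M₁ M₂ M₃ : FDMod k H) (i : M₁.V →ₗ[k] M₂.V)
    (p : M₂.V →ₗ[k] M₃.V), IsSES M₁ M₂ M₃ i p → M₁ ∈ S → M₃ ∈ S → M₂ ∈ S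
  /-- two out of three -/
  mem_of_middle_of_right : ∀ (M₁ M₂ M₃ : FDMod k H) (i : M₁.V →ₗ[k] M₂.V)
    (p : M₂.V →ₗ[k] M₃.V), IsSES M₁ M₂ M₃ i p → M₂ ∈ S → M₃ ∈ S → M₁ ∈ S
  /-- `S` is a left tensor ideal -/
  tensor_mem_left : ∀ X M : FDMod k H, M ∈ S → X.tensor M ∈ S
  /-- `S` is a right tensor ideal -/
  tensor_mem_right : ∀ X M : FDMod k H, M ∈ S → M.tensor X ∈ S

/-- `S` is a prime ideal of `stmod(H)`. -/
structure IsPrimeIdeal (S : Set (FDMod k H)) : Prop extends IsTensorIdeal S where
  /-- `S` is proper -/
  proper : ∃ M : FDMod k H, M ∉ S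
  /-- if `A ⊗ C ⊗ B ∈ S` for all `C` then `A ∈ S` or `B ∈ S` -/
  prime : ∀ A B : FDMod k H, (∀ C : FDMod k H, (A.tensor C).tensor B ∈ S) → A ∈ S ∨ B ∈ S

variable (k H)

/-- The Balmer spectrum of `stmod(H)`: the set of prime ideals. -/
def Spc : Type (u + 1) := {S : Set (FDMod k H) // IsPrimeIdeal S}

end Spectrum

section Double

variable (k H : Type u) [Field k] [Ring H] [Bialgebra k H]

/-- The convolution product of two linear forms on `H`, `(p * q)(h) = ∑ p(h₁) q(h₂)`. -/
noncomputable def convMul (p q : Module.Dual k H) : Module.Dual k H :=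
  LinearMap.mul' k k ∘ₗ TensorProduct.map p q ∘ₗ Coalgebra.comul

/-- The linear form `p(h ?)`. -/
noncomputable def leftShift (h : H) (p : Module.Dual k H) : Module.Dual k H :=
  p ∘ₗ LinearMap.mulLeft k h

/-- The linear form `p(? h)`. -/
noncomputable def rightShift (h : H) (p : Module.Dual k H) : Module.Dual k H :=
  p ∘ₗ LinearMap.mulRight k h

/-- The generator of `D(H)` given by an element of `H`. -/
abbrev gH (h : H) : FreeAlgebra k (H ⊕ Module.Dual k H) := FreeAlgebra.ι k (Sum.inl h)

/-- The generator of `D(H)` given by an element of the dual of `H`. -/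
abbrev gD (p : Module.Dual k H) : FreeAlgebra k (H ⊕ Module.Dual k H) :=
  FreeAlgebra.ι k (Sum.inr p)

/-- The defining relations of the Drinfeld double `D(H)`: the relations of the algebra `H`,
the relations of the algebra `H^*` (dual to the coalgebra `H`), and the cross relations
`∑ h₁ · p(h₂ ?) = ∑ p(? h₁) · h₂` for `h ∈ H` and `p ∈ H^*`.  (When the antipode `S` of `H` is
bijective, as it is when `H` is finite-dimensional, the cross relations are equivalent to the
relations `h · p = ∑ p(S⁻¹(h₃) ? h₁) · h₂`.) -/
inductive DoubleRel : FreeAlgebra k (H ⊕ Module.Dual k H) →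
    FreeAlgebra k (H ⊕ Module.Dual k H) → Prop
  | addH (g h : H) : DoubleRel (gH k H (g + h)) (gH k H g + gH k H h)
  | smulH (c : k) (h : H) : DoubleRel (gH k H (c • h)) (c • gH k H h)
  | mulH (g h : H) : DoubleRel (gH k H (g * h)) (gH k H g * gH k H h)
  | oneH : DoubleRel (gH k H 1) 1
  | addD (p q : Module.Dual k H) : DoubleRel (gD k H (p + q)) (gD k H p + gD k H q)
  | smulD (c : k) (p : Module.Dual k H) : DoubleRel (gD k H (c • p)) (c • gD k H p)
  | mulD (p q : Module.Dual k H) :
      DoubleRel (gD k H (convMul k H p q)) (gD k H p * gD k H q)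
  | oneD : DoubleRel (gD k H Coalgebra.counit) 1
  | cross (h : H) (ι : Type u) (r : Coalgebra.Repr k h ι) (p : Module.Dual k H) :
      DoubleRel
        (∑ i ∈ r.index, gH k H (r.left i) * gD k H (leftShift k H (r.right i) p))
        (∑ i ∈ r.index, gD k H (rightShift k H (r.left i) p) * gH k H (r.right i))

/-- The Drinfeld double `D(H)` of `H`, as an algebra. -/
abbrev Double : Type u := RingQuot (DoubleRel k H)

/-- The quotient map onto `D(H)`. -/
noncomputable def Double.mk : FreeAlgebra k (H ⊕ Module.Dual k H) →ₐ[k] Double k H :=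
  RingQuot.mkAlgHom k (DoubleRel k H)

/-- The inclusion `H → D(H)`. -/
noncomputable def Double.incl : H →ₐ[k] Double k H :=
  AlgHom.ofLinearMap
    { toFun := fun h => Double.mk k H (gH k H h)
      map_add' := fun g h => by
        rw [← map_add]
        exact RingQuot.mkAlgHom_rel k (DoubleRel.addH g h)
      map_smul' := fun c h => by
        rw [RingHom.id_apply, ← map_smul]
        exact RingQuot.mkAlgHom_rel k (DoubleRel.smulH c h) }
    (by
      have := RingQuot.mkAlgHom_rel k (DoubleRel.oneH (k := k) (H := H))
      rw [map_one] at this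
      exact this)
    (fun g h => by
      have := RingQuot.mkAlgHom_rel k (DoubleRel.mulH (k := k) g h)
      rw [map_mul] at this
      exact this)

/-- The map `f` of the problem: it sends a prime `P` of `stmod(H)` to its preimage `F⁻¹(P)` under
the restriction functor `F : stmod(D(H)) → stmod(H)`, that is, to the class of all
finite-dimensional `D(H)`-modules whose restriction to `H` belongs to `P`. -/
def balmerMap (P : Spc k H) : Set (FDMod k (Double k H)) :=
  {N | N.restrict (Double.incl k H) ∈ P.1}

end Double

end Pool.Agent.R709.BS
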