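import Mathlib

/-!
# An eight-dimensional commutative Hopf algebra in characteristic two

`H = k[x, w] / (x⁴ - a x², w²)` with `e = a⁻¹ x²`,
`Δ x = x ⊗ 1 + 1 ⊗ x + e ⊗ w` and `Δ w = w ⊗ 1 + 1 ⊗ w`.
-/

open scoped TensorProduct
open Polynomial

namespace Pool.Agent.R709.BS

universe u

variable (k : Type u) [Field k] (a : k)

/-- `k[x] / (x⁴ - a x²)`. -/
abbrev Rx : Type u := AdjoinRoot (X ^ 4 - C a * X ^ 2 : k[X])

/-- `k[x, w] / (x⁴ - a x², w²)`. -/
def HA : Type u := DualNumber (Rx k a)

noncomputable instance : CommRing (HA k a) := inferInstanceAs (CommRing (DualNumber (Rx k a)))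

noncomputable instance : Algebra k (HA k a) :=
  inferInstanceAs (Algebra k (DualNumber (Rx k a)))

namespace HA

/-- the generator `x` -/
noncomputable def x : HA k a := TrivSqZeroExt.inl (AdjoinRoot.root _)

/-- the generator `w` -/
noncomputable def w : HA k a := DualNumber.eps

/-- the idempotent `e = a⁻¹ x²` -/
noncomputable def e : HA k a := a⁻¹ • x k a ^ 2

theorem w_sq : w k a * w k a = 0 := DualNumber.eps_mul_eps

theorem root_pow : (AdjoinRoot.root (X ^ 4 - C a * X ^ 2 : k[X])) ^ 4 =
    a • (AdjoinRoot.root (X ^ 4 - C a * X ^ 2 : k[X])) ^ 2 := by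
  have h : AdjoinRoot.mk (X ^ 4 - C a * X ^ 2 : k[X]) (X ^ 4 - C a * X ^ 2 : k[X]) = 0 :=
    AdjoinRoot.mk_self
  rw [map_sub, map_mul, map_pow, map_pow, AdjoinRoot.mk_X, AdjoinRoot.mk_C] at h
  rw [Algebra.smul_def]
  exact sub_eq_zero.mp h

theorem x_pow : x k a ^ 4 = a • x k a ^ 2 := by
  unfold x
  have h := congrArg (fun t : Rx k a => (TrivSqZeroExt.inlAlgHom k (Rx k a) (Rx k a) t))
    (root_pow k a)
  simp only [map_pow, map_smul] at h
  exact h

variable {k a}

/-- The universal property of `H`. -/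
noncomputable def lift {B : Type*} [CommRing B] [Algebra k B] (b c : B)
    (hb : b ^ 4 = a • b ^ 2) (hc : c * c = 0) : HA k a →ₐ[k] B :=
  DualNumber.lift ⟨(AdjoinRoot.liftAlgHom (X ^ 4 - C a * X ^ 2 : k[X]) (Algebra.ofId k B) b
    (by
      rw [eval₂_sub, eval₂_mul, eval₂_pow, eval₂_pow, eval₂_X, eval₂_C]
      rw [hb, Algebra.smul_def]
      exact sub_self _), c), hc, fun _ => Commute.all _ _⟩

variable {B : Type*} [CommRing B] [Algebra k B] (b c : B) (hb : b ^ 4 = a • b ^ 2)
  (hc : c * c = 0)

@[simp] theorem lift_x : lift b c hb hc (x k a) = b := by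
  unfold lift x
  erw [DualNumber.lift_apply_inl]
  simp

@[simp] theorem lift_w : lift b c hb hc (w k a) = c := by
  unfold lift w
  erw [DualNumber.lift_apply_eps]

@[simp] theorem lift_e : lift b c hb hc (e k a) = a⁻¹ • b ^ 2 := by
  unfold e
  simp

/-- The inclusion `k[x]/(x⁴ - a x²) → H`. -/
noncomputable def ofRx : Rx k a →ₐ[k] HA k a := TrivSqZeroExt.inlAlgHom k (Rx k a) (Rx k a)

theorem exists_eq (t : HA k a) : ∃ r s : Rx k a, t = ofRx r + ofRx s * w k a := by
  refine ⟨TrivSqZeroExt.fst t, TrivSqZeroExt.snd t, ?_⟩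
  apply TrivSqZeroExt.ext
  · change _ = TrivSqZeroExt.fst t + TrivSqZeroExt.snd t * 0
    simp
  · change TrivSqZeroExt.snd t = 0 + (TrivSqZeroExt.snd t * 1 + 0 * 0)
    simp

theorem hom_ext {A : Type*} [Semiring A] [Algebra k A] {f g : HA k a →ₐ[k] A}
    (hx : f (x k a) = g (x k a)) (hw : f (w k a) = g (w k a)) : f = g := by
  have key : ∀ r : Rx k a, f (ofRx r) = g (ofRx r) := by
    have h : f.comp ofRx = g.comp ofRx := by
      apply AdjoinRoot.algHom_ext
      exact hx
    intro r
    exact DFunLike.congr_fun h r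
  apply AlgHom.ext
  intro t
  obtain ⟨r, s, rfl⟩ := exists_eq t
  rw [map_add, map_add, map_mul, map_mul, key, key, hw]

/-! ### the Hopf algebra structure -/

section Hopf

variable [CharP k 2]

/-- In a `k`-algebra over a field of characteristic two, `2 = 0`. -/
theorem two_eq_zero' (k : Type*) [Field k] [CharP k 2] (B : Type*) [Ring B] [Algebra k B] :
    (2 : B) = 0 := by
  have h : (algebraMap k B) 2 = 0 := by rw [CharTwo.two_eq_zero, map_zero]
  rwa [map_ofNat] at h

theorem add_self' (k : Type*) [Field k] [CharP k 2] {B : Type*} [AddCommGroup B] [Module k B]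
    (t : B) : t + t = 0 := by
  rw [← two_smul k t, CharTwo.two_eq_zero, zero_smul]

theorem sq_add {k : Type*} [Field k] [CharP k 2] {B : Type*} [CommRing B] [Algebra k B]
    (s t : B) : (s + t) ^ 2 = s ^ 2 + t ^ 2 := by
  linear_combination (s * t) * two_eq_zero' k B

theorem pow4_add {k : Type*} [Field k] [CharP k 2] {B : Type*} [CommRing B] [Algebra k B]
    (s t : B) : (s + t) ^ 4 = s ^ 4 + t ^ 4 := by
  linear_combination (2 * s ^ 3 * t + 3 * s ^ 2 * t ^ 2 + 2 * s * t ^ 3) * two_eq_zero' k B

omit [CharP k 2] in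
theorem w_sq' : w k a ^ 2 = 0 := by rw [pow_two, w_sq]

/-- the element `x ⊗ 1 + 1 ⊗ x + e ⊗ w` -/
noncomputable def dx (k : Type u) [Field k] (a : k) : HA k a ⊗[k] HA k a :=
  x k a ⊗ₜ 1 + 1 ⊗ₜ x k a + e k a ⊗ₜ w k a

/-- the element `w ⊗ 1 + 1 ⊗ w` -/
noncomputable def dw (k : Type u) [Field k] (a : k) : HA k a ⊗[k] HA k a :=
  w k a ⊗ₜ 1 + 1 ⊗ₜ w k a

theorem dx_sq : dx k a ^ 2 = (x k a ^ 2) ⊗ₜ 1 + 1 ⊗ₜ (x k a ^ 2) := by
  unfold dx
  rw [sq_add (k := k), sq_add (k := k), Algebra.TensorProduct.tmul_pow,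
    Algebra.TensorProduct.tmul_pow, Algebra.TensorProduct.tmul_pow, one_pow, w_sq',
    TensorProduct.tmul_zero, add_zero]

theorem dx_pow4 : dx k a ^ 4 = a • dx k a ^ 2 := by
  have h : dx k a ^ 4 = (dx k a ^ 2) ^ 2 := by ring
  rw [h, dx_sq, sq_add (k := k), Algebra.TensorProduct.tmul_pow,
    Algebra.TensorProduct.tmul_pow, one_pow, ← pow_mul, x_pow, smul_add,
    TensorProduct.tmul_smul, ← TensorProduct.smul_tmul']

theorem dw_sq : dw k a * dw k a = 0 := by
  rw [← pow_two]
  unfold dw
  rw [sq_add (k := k), Algebra.TensorProduct.tmul_pow, Algebra.TensorProduct.tmul_pow, one_pow,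
    w_sq', TensorProduct.tmul_zero, TensorProduct.zero_tmul, add_zero]

/-- the comultiplication -/
noncomputable def comulHom : HA k a →ₐ[k] HA k a ⊗[k] HA k a :=
  lift (dx k a) (dw k a) dx_pow4 dw_sq

/-- the counit -/
noncomputable def counitHom : HA k a →ₐ[k] k :=
  lift 0 0 (by simp) (by simp)

theorem sx_pow : (x k a + e k a * w k a) ^ 4 = a • (x k a + e k a * w k a) ^ 2 := by
  rw [sq_add (k := k), pow4_add (k := k), mul_pow, mul_pow, w_sq', mul_zero, add_zero]
  have : w k a ^ 4 = 0 := by
    have h : w k a ^ 4 = (w k a ^ 2) ^ 2 := by ring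
    rw [h, w_sq']
    simp
  rw [this, mul_zero, add_zero, x_pow]

/-- the antipode -/
noncomputable def antipodeHom : HA k a →ₐ[k] HA k a :=
  lift (x k a + e k a * w k a) (w k a) sx_pow (w_sq k a)

theorem comul_x : comulHom (x k a) = dx k a := by simp [comulHom]

theorem comul_w : comulHom (w k a) = dw k a := by simp [comulHom]

theorem comul_e : comulHom (e k a) = e k a ⊗ₜ 1 + 1 ⊗ₜ e k a := by
  rw [comulHom, lift_e, dx_sq, e, smul_add, TensorProduct.tmul_smul, ← TensorProduct.smul_tmul']

omit [CharP k 2] in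
theorem e_sq (ha : a ≠ 0) : e k a * e k a = e k a := by
  unfold e
  rw [smul_mul_smul_comm, ← pow_add, x_pow, smul_smul]
  congr 1
  field_simp

omit [CharP k 2] in
theorem assoc_apply' (p q r : HA k a) :
    (Algebra.TensorProduct.assoc k k k (HA k a) (HA k a) (HA k a)).toAlgHom ((p ⊗ₜ q) ⊗ₜ r) =
      p ⊗ₜ (q ⊗ₜ r) := rfl

/-- The bialgebra structure on `H`. -/
noncomputable instance instBialgebra [Fact (a ≠ 0)] : Bialgebra k (HA k a) :=
  Bialgebra.ofAlgHom comulHom counitHom
    (by
      apply hom_ext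
      · simp only [AlgHom.comp_apply, comul_x, dx, map_add, Algebra.TensorProduct.map_tmul,
          map_one, AlgHom.id_apply, comul_w, comul_e, dw]
        simp only [TensorProduct.add_tmul, TensorProduct.tmul_add, map_add]
        simp only [assoc_apply', Algebra.TensorProduct.one_def]
        abel
      · simp only [AlgHom.comp_apply, comul_w, dw, map_add, Algebra.TensorProduct.map_tmul,
          map_one, AlgHom.id_apply]
        simp only [TensorProduct.add_tmul, TensorProduct.tmul_add, map_add]
        simp only [assoc_apply', Algebra.TensorProduct.one_def]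
        abel)
    (by
      apply hom_ext
      · simp [comul_x, dx, counitHom]
      · simp [comul_w, dw, counitHom])
    (by
      apply hom_ext
      · simp [comul_x, dx, counitHom]
      · simp [comul_w, dw, counitHom])

theorem comulAlgHom_eq [Fact (a ≠ 0)] :
    Bialgebra.comulAlgHom k (HA k a) = (comulHom : HA k a →ₐ[k] HA k a ⊗[k] HA k a) := by
  ext t
  rfl

theorem counitAlgHom_eq [Fact (a ≠ 0)] :
    Bialgebra.counitAlgHom k (HA k a) = (counitHom : HA k a →ₐ[k] k) := by
  ext t
  rfl

/-- The Hopf algebra structure on `H`. -/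
noncomputable instance instHopf [Fact (a ≠ 0)] : HopfAlgebra k (HA k a) :=
  HopfAlgebra.ofAlgHom antipodeHom
    (by
      rw [comulAlgHom_eq, counitAlgHom_eq]
      apply hom_ext
      · simp only [AlgHom.comp_apply, comul_x, dx, map_add]
        erw [Algebra.TensorProduct.lift_tmul, Algebra.TensorProduct.lift_tmul,
          Algebra.TensorProduct.lift_tmul]
        simp only [map_one, AlgHom.id_apply, mul_one, one_mul]
        have h1 : antipodeHom (x k a) = x k a + e k a * w k a := by simp [antipodeHom]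
        have h2 : antipodeHom (e k a) = e k a := by
          rw [antipodeHom, lift_e, sq_add (k := k), mul_pow, w_sq', mul_zero, add_zero, e]
        have h3 : counitHom (x k a) = 0 := by simp [counitHom]
        rw [h1, h2, h3, map_zero]
        linear_combination (x k a + e k a * w k a) * two_eq_zero' k (HA k a)
      · simp only [AlgHom.comp_apply, comul_w, dw, map_add]
        erw [Algebra.TensorProduct.lift_tmul, Algebra.TensorProduct.lift_tmul]
        simp only [map_one, AlgHom.id_apply, mul_one, one_mul]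
        have h1 : antipodeHom (w k a) = w k a := by simp [antipodeHom]
        have h3 : counitHom (w k a) = 0 := by simp [counitHom]
        rw [h1, h3, map_zero]
        exact add_self' k _)
    (by
      rw [comulAlgHom_eq, counitAlgHom_eq]
      apply hom_ext
      · simp only [AlgHom.comp_apply, comul_x, dx, map_add, Algebra.TensorProduct.lift_tmul,
          map_one, AlgHom.id_apply, mul_one, one_mul]
        have h1 : antipodeHom (x k a) = x k a + e k a * w k a := by simp [antipodeHom]
        have h2 : antipodeHom (w k a) = w k a := by simp [antipodeHom]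
        have h3 : counitHom (x k a) = 0 := by simp [counitHom]
        rw [h1, h2, h3, map_zero]
        linear_combination (x k a + e k a * w k a) * two_eq_zero' k (HA k a)
      · simp only [AlgHom.comp_apply, comul_w, dw, map_add, Algebra.TensorProduct.lift_tmul,
          map_one, AlgHom.id_apply, mul_one, one_mul]
        have h1 : antipodeHom (w k a) = w k a := by simp [antipodeHom]
        have h3 : counitHom (w k a) = 0 := by simp [counitHom]
        rw [h1, h3, map_zero]
        exact add_self' k _)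

end Hopf

/-! ### dimension -/

theorem monic_poly : (X ^ 4 - C a * X ^ 2 : k[X]).Monic := by
  monicity!

theorem natDegree_poly : (X ^ 4 - C a * X ^ 2 : k[X]).natDegree = 4 := by
  compute_degree!

instance finite_Rx : Module.Finite k (Rx k a) := monic_poly.finite_adjoinRoot

theorem finrank_Rx : Module.finrank k (Rx k a) = 4 := by
  rw [(AdjoinRoot.powerBasis' (monic_poly (a := a))).finrank, AdjoinRoot.powerBasis'_dim,
    natDegree_poly]

/-- `H` as a vector space. -/
noncomputable def prodEquiv : HA k a ≃ₗ[k] (Rx k a × Rx k a) where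
  toFun t := (TrivSqZeroExt.fst t, TrivSqZeroExt.snd t)
  invFun t := (TrivSqZeroExt.inl t.1 + TrivSqZeroExt.inr t.2 : DualNumber (Rx k a))
  map_add' _ _ := rfl
  map_smul' _ _ := rfl
  left_inv t := TrivSqZeroExt.inl_fst_add_inr_snd_eq t
  right_inv t := by simp

instance finite_HA : Module.Finite k (HA k a) := Module.Finite.equiv (prodEquiv (a := a)).symm

theorem finrank_HA : Module.finrank k (HA k a) = 8 := by
  rw [(prodEquiv (a := a)).finrank_eq, Module.finrank_prod, finrank_Rx]

/-! ### annihilators -/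

theorem mem_of_root_mul {r : Rx k a} (h : AdjoinRoot.root _ * r = 0) :
    ∃ s : Rx k a, AdjoinRoot.root _ * s = r := by
  obtain ⟨p, rfl⟩ := AdjoinRoot.mk_surjective r
  rw [← AdjoinRoot.mk_X, ← map_mul, AdjoinRoot.mk_eq_zero] at h
  obtain ⟨q, hq⟩ := h
  have h2 : p = X * ((X ^ 2 - C a) * q) := by
    have : (X : k[X]) * p = X * (X * ((X ^ 2 - C a) * q)) := by
      rw [hq]; ring
    exact mul_left_cancel₀ X_ne_zero this
  refine ⟨AdjoinRoot.mk _ ((X ^ 2 - C a) * q), ?_⟩
  rw [← AdjoinRoot.mk_X, ← map_mul, ← h2]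

theorem exact_x {t : HA k a} (h : x k a * t = 0) : ∃ s, x k a * s = t := by
  have h1 : AdjoinRoot.root _ * TrivSqZeroExt.fst t = 0 := congrArg TrivSqZeroExt.fst h
  have h2 : AdjoinRoot.root _ * TrivSqZeroExt.snd t + 0 * TrivSqZeroExt.fst t = 0 :=
    congrArg TrivSqZeroExt.snd h
  rw [zero_mul, add_zero] at h2
  obtain ⟨r, hr⟩ := mem_of_root_mul h1
  obtain ⟨s, hs⟩ := mem_of_root_mul h2
  refine ⟨ofRx r + ofRx s * w k a, ?_⟩
  apply TrivSqZeroExt.ext
  · change AdjoinRoot.root _ * (r + s * 0) = TrivSqZeroExt.fst t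
    rw [mul_zero, add_zero, hr]
  · change AdjoinRoot.root _ * (0 + (s * 1 + 0 * 0)) + 0 * (r + s * 0) = TrivSqZeroExt.snd t
    rw [zero_mul, mul_one, zero_mul, add_zero, zero_add, add_zero, hs]

/-- The involution `x ↦ x + w`, `w ↦ w`. -/
noncomputable def theta [CharP k 2] : HA k a →ₐ[k] HA k a :=
  lift (x k a + w k a) (w k a)
    (by
      have h4 : w k a ^ 4 = 0 := by
        have h : w k a ^ 4 = (w k a ^ 2) ^ 2 := by ring
        rw [h, w_sq']
        simp
      rw [pow4_add (k := k), sq_add (k := k), h4, w_sq', add_zero, add_zero, x_pow])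
    (w_sq k a)

theorem theta_theta [CharP k 2] (t : HA k a) : theta (theta t) = t := by
  have : theta.comp theta = AlgHom.id k (HA k a) := by
    apply hom_ext
    · rw [AlgHom.comp_apply, theta, lift_x, map_add, lift_x, lift_w, AlgHom.id_apply, add_assoc,
        add_self' k, add_zero]
    · rw [AlgHom.comp_apply, theta, lift_w, lift_w, AlgHom.id_apply]
  exact DFunLike.congr_fun this t

theorem exact_y [CharP k 2] {t : HA k a} (h : (x k a + w k a) * t = 0) :
    ∃ s, (x k a + w k a) * s = t := by
  have hx : theta (x k a) = x k a + w k a := by rw [theta, lift_x]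
  have h1 : x k a * theta t = 0 := by
    have := congrArg theta h
    rw [map_mul, map_zero, ← hx, theta_theta] at this
    exact this
  obtain ⟨s, hs⟩ := exact_x h1
  refine ⟨theta s, ?_⟩
  have := congrArg theta hs
  rw [map_mul, theta_theta, hx] at this
  exact this

end HA

end Pool.Agent.R709.BS
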