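import Pool.Agent.R709.BS.Primes

/-!
# The counterexample
-/

open scoped TensorProduct

namespace Pool.Agent.R709.BS

open FDMod

universe u

section Double

variable (k H : Type u) [Field k] [Ring H] [Bialgebra k H]

/-- The linear map `H^* → D(H)`. -/
noncomputable def Double.dual : Module.Dual k H →ₗ[k] Double k H where
  toFun p := Double.mk k H (gD k H p)
  map_add' p q := by
    rw [← map_add]
    exact RingQuot.mkAlgHom_rel k (DoubleRel.addD p q)
  map_smul' c p := by
    rw [RingHom.id_apply, ← map_smul]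
    exact RingQuot.mkAlgHom_rel k (DoubleRel.smulD c p)

variable {k H}

theorem Double.dual_mul (p q : Module.Dual k H) :
    Double.dual k H (convMul k H p q) = Double.dual k H p * Double.dual k H q := by
  have := RingQuot.mkAlgHom_rel k (DoubleRel.mulD (k := k) p q)
  rw [map_mul] at this
  exact this

theorem Double.dual_one : Double.dual k H Coalgebra.counit = 1 := by
  have := RingQuot.mkAlgHom_rel k (DoubleRel.oneD (k := k) (H := H))
  rw [map_one] at this
  exact this

theorem Double.cross {h : H} {ι : Type u} (r : Coalgebra.Repr k h ι) (p : Module.Dual k H) :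
    ∑ i ∈ r.index, Double.incl k H (r.left i) *
        Double.dual k H (leftShift k H (r.right i) p) =
      ∑ i ∈ r.index, Double.dual k H (rightShift k H (r.left i) p) *
        Double.incl k H (r.right i) := by
  have := RingQuot.mkAlgHom_rel k (DoubleRel.cross (k := k) h ι r p)
  rw [map_sum, map_sum] at this
  simp only [map_mul] at this
  exact this

end Double

section Example

variable {k : Type u} [Field k] [CharP k 2] {a : k}

open HA

theorem comul_x' [Fact (a ≠ 0)] : Coalgebra.comul (R := k) (x k a) =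
    x k a ⊗ₜ 1 + 1 ⊗ₜ x k a + e k a ⊗ₜ w k a := comul_x

theorem comul_w' [Fact (a ≠ 0)] : Coalgebra.comul (R := k) (w k a) =
    w k a ⊗ₜ 1 + 1 ⊗ₜ w k a := comul_w

theorem comul_e' [Fact (a ≠ 0)] : Coalgebra.comul (R := k) (e k a) =
    e k a ⊗ₜ 1 + 1 ⊗ₜ e k a := comul_e

theorem counit_x' [Fact (a ≠ 0)] : Coalgebra.counit (R := k) (x k a) = 0 := by
  change counitHom (x k a) = 0
  simp [counitHom]

theorem counit_w' [Fact (a ≠ 0)] : Coalgebra.counit (R := k) (w k a) = 0 := by
  change counitHom (w k a) = 0
  simp [counitHom]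

/-- The first prime: `u = x`. -/
noncomputable def datumX [h0 : Fact (a ≠ 0)] (ha : ∀ b : k, b * b ≠ a) :
    Datum k (HA k a) where
  a := a
  u := x k a
  w := w k a
  e := e k a
  a_ne := h0.out
  nonsq := ha
  u_sq := by rw [e, smul_smul, mul_inv_cancel₀ h0.out, one_smul, pow_two]
  e_sq := e_sq h0.out
  comul_u := comul_x'
  comul_e := comul_e'
  counit_u := counit_x'
  exact_u := fun _ ht => exact_x ht

/-- The second prime: `u = x + w`. -/
noncomputable def datumY [h0 : Fact (a ≠ 0)] (ha : ∀ b : k, b * b ≠ a) :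
    Datum k (HA k a) where
  a := a
  u := x k a + w k a
  w := w k a
  e := e k a
  a_ne := h0.out
  nonsq := ha
  u_sq := by
    rw [← pow_two, sq_add (k := k), w_sq', add_zero, e, smul_smul, mul_inv_cancel₀ h0.out,
      one_smul]
  e_sq := e_sq h0.out
  comul_u := by
    rw [map_add, comul_x', comul_w', TensorProduct.add_tmul, TensorProduct.tmul_add]
    abel
  comul_e := comul_e'
  counit_u := by rw [map_add, counit_x', counit_w', add_zero]
  exact_u := fun _ ht => exact_y ht

/-- The homomorphism `H → k[ε]` with `x ↦ 0` and `w ↦ ε`. -/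
noncomputable def testHom : HA k a →ₐ[k] QuadraticAlgebra k (0 : k) 0 :=
  lift (0 : QuadraticAlgebra k (0 : k) 0) QuadraticAlgebra.omega (by simp)
    (by ext <;> simp)

/-- The module `k[ε]` on which `x` acts by zero and `w` by `ε`. -/
noncomputable def testMod [Fact (a ≠ 0)] : FDMod k (HA k a) where
  V := QuadraticAlgebra k (0 : k) 0
  act := (Algebra.lmul k (QuadraticAlgebra k (0 : k) 0)).comp testHom

omit [CharP k 2] in
theorem testMod_x [Fact (a ≠ 0)] (v : QuadraticAlgebra k (0 : k) 0) :
    (testMod (a := a)).act (x k a) v = (0 : QuadraticAlgebra k (0 : k) 0) := by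
  change testHom (x k a) * v = 0
  rw [testHom, lift_x, zero_mul]

omit [CharP k 2] in
theorem testMod_y [Fact (a ≠ 0)] (v : QuadraticAlgebra k (0 : k) 0) :
    (testMod (a := a)).act (x k a + w k a) v =
      (QuadraticAlgebra.omega * v : QuadraticAlgebra k (0 : k) 0) := by
  change testHom (x k a + w k a) * v = _
  rw [testHom, map_add, lift_x, lift_w, zero_add]

theorem testMod_notMem [Fact (a ≠ 0)] : testMod ∉ PU (k := k) (x k a) := by
  intro h
  obtain ⟨n, hn⟩ := h (1 : QuadraticAlgebra k (0 : k) 0) (testMod_x _)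
  rw [testMod_x n] at hn
  exact zero_ne_one (α := QuadraticAlgebra k (0 : k) 0) hn

omit [CharP k 2] in
theorem omega_exact (v : QuadraticAlgebra k (0 : k) 0)
    (h : (QuadraticAlgebra.omega * v : QuadraticAlgebra k (0 : k) 0) = 0) :
    ∃ n : QuadraticAlgebra k (0 : k) 0, QuadraticAlgebra.omega * n = v := by
  have hre : v.re = 0 := by
    have := congrArg QuadraticAlgebra.im h
    simpa using this
  refine ⟨⟨v.im, 0⟩, ?_⟩
  ext
  · simp [hre]
  · simp

theorem testMod_mem [Fact (a ≠ 0)] : testMod ∈ PU (k := k) (x k a + w k a) := by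
  intro v hv
  obtain ⟨n, hn⟩ := omega_exact (k := k) v ((testMod_y v).symm.trans hv)
  exact ⟨n, (testMod_y n).trans hn⟩

/-! ### the grouplike element of `H^* ⊗ K` -/

/-- The homomorphism `ξ : H → K = k(√a)` with `x ↦ √a` and `w ↦ 0`. -/
noncomputable def xi : HA k a →ₐ[k] QuadraticAlgebra k a 0 :=
  lift (QuadraticAlgebra.omega) 0
    (by
      have h : (QuadraticAlgebra.omega : QuadraticAlgebra k a 0) ^ 2 = a • 1 := by
        rw [pow_two]
        ext <;> simp [QuadraticAlgebra.re_one, QuadraticAlgebra.im_one]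
      have h4 : (QuadraticAlgebra.omega : QuadraticAlgebra k a 0) ^ 4 =
          (QuadraticAlgebra.omega ^ 2) ^ 2 := by ring
      rw [h4, h, pow_two, mul_smul_comm, mul_one])
    (by simp)

/-- The rational part of `ξ`. -/
noncomputable def xi0 : Module.Dual k (HA k a) :=
  QuadraticAlgebra.reₗ a 0 ∘ₗ (xi (a := a)).toLinearMap

/-- The coefficient of `√a` in `ξ`. -/
noncomputable def xi1 : Module.Dual k (HA k a) :=
  QuadraticAlgebra.imₗ a 0 ∘ₗ (xi (a := a)).toLinearMap

omit [CharP k 2] in
theorem xi_x : xi (x k a) = QuadraticAlgebra.omega := by rw [xi, lift_x]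

omit [CharP k 2] in
theorem xi_w : xi (w k a) = 0 := by rw [xi, lift_w]

omit [CharP k 2] in
theorem xi_e (h0 : a ≠ 0) : xi (e k a) = 1 := by
  rw [xi, lift_e, pow_two]
  ext
  · simp [h0, QuadraticAlgebra.re_one]
  · simp [QuadraticAlgebra.im_one]

omit [CharP k 2] in
theorem xi0_apply (t : HA k a) : xi0 t = (xi t).re := rfl

omit [CharP k 2] in
theorem xi1_apply (t : HA k a) : xi1 t = (xi t).im := rfl

theorem conv_xi [Fact (a ≠ 0)] :
    convMul k (HA k a) xi0 xi0 + a • convMul k (HA k a) xi1 xi1 = Coalgebra.counit := by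
  have h1 : (Algebra.TensorProduct.lift (xi (a := a)) xi (fun _ _ => Commute.all _ _)).comp
      (comulHom : HA k a →ₐ[k] HA k a ⊗[k] HA k a) =
      (Algebra.ofId k (QuadraticAlgebra k a 0)).comp counitHom := by
    apply hom_ext
    · rw [AlgHom.comp_apply, comul_x, dx]
      simp only [map_add, Algebra.TensorProduct.lift_tmul, map_one, mul_one, one_mul, xi_w,
        mul_zero, add_zero]
      rw [add_self' k, AlgHom.comp_apply, counitHom, lift_x, map_zero]
    · rw [AlgHom.comp_apply, comul_w, dw]
      simp only [map_add, Algebra.TensorProduct.lift_tmul, map_one, mul_one, one_mul, xi_w,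
        add_zero]
      rw [AlgHom.comp_apply, counitHom, lift_w, map_zero]
  have h2 : QuadraticAlgebra.reₗ a 0 ∘ₗ
      (Algebra.TensorProduct.lift (xi (a := a)) xi (fun _ _ => Commute.all _ _)).toLinearMap =
      LinearMap.mul' k k ∘ₗ TensorProduct.map xi0 xi0 +
        a • (LinearMap.mul' k k ∘ₗ TensorProduct.map xi1 xi1) := by
    apply TensorProduct.ext'
    intro s t
    simp [xi0_apply, xi1_apply, mul_assoc]
  apply LinearMap.ext
  intro t
  have h3 := DFunLike.congr_fun h2 (Coalgebra.comul (R := k) t)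
  have h4 := DFunLike.congr_fun h1 t
  have h5 : (QuadraticAlgebra.reₗ a 0) ((Algebra.TensorProduct.lift (xi (a := a)) xi
      (fun _ _ => Commute.all _ _)) (Coalgebra.comul (R := k) t)) = Coalgebra.counit (R := k) t := by
    have h6 := congrArg (QuadraticAlgebra.reₗ a 0) h4
    refine h6.trans ?_
    rfl
  rw [← h5]
  exact h3.symm

omit [CharP k 2] in
theorem leftShift_comm {H : Type u} [CommRing H] [Bialgebra k H] (h : H)
    (p : Module.Dual k H) : leftShift k H h p = rightShift k H h p := by
  apply LinearMap.ext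
  intro t
  simp [leftShift, rightShift, mul_comm]

omit [CharP k 2] in
theorem leftShift_one {H : Type u} [CommRing H] [Bialgebra k H] (p : Module.Dual k H) :
    leftShift k H 1 p = p := by
  apply LinearMap.ext
  intro t
  simp [leftShift]

/-- The linear forms used below: they are killed by `w` and fixed by `e`. -/
def IsGood (p : Module.Dual k (HA k a)) : Prop :=
  ∀ t, p (w k a * t) = 0 ∧ p (e k a * t) = p t

omit [CharP k 2] in
theorem good_xi0 (h0 : a ≠ 0) : IsGood (xi0 (k := k) (a := a)) := by
  intro t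
  refine ⟨?_, ?_⟩
  · rw [xi0_apply, map_mul, xi_w, zero_mul]; rfl
  · rw [xi0_apply, map_mul, xi_e h0, one_mul]; rfl

omit [CharP k 2] in
theorem good_xi1 (h0 : a ≠ 0) : IsGood (xi1 (k := k) (a := a)) := by
  intro t
  refine ⟨?_, ?_⟩
  · rw [xi1_apply, map_mul, xi_w, zero_mul]; rfl
  · rw [xi1_apply, map_mul, xi_e h0, one_mul]; rfl

/-- The cross relation for `x`. -/
theorem cross_x [Fact (a ≠ 0)] {p : Module.Dual k (HA k a)} (hp : IsGood p) :
    Double.incl k (HA k a) (x k a) * Double.dual k (HA k a) p =
      Double.dual k (HA k a) p * Double.incl k (HA k a) (x k a + w k a) := by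
  let r : Coalgebra.Repr k (x k a) (ULift.{u} (Fin 3)) :=
    { index := Finset.univ
      left := fun i => ![x k a, 1, e k a] i.down
      right := fun i => ![1, x k a, w k a] i.down
      eq := by
        rw [← Equiv.ulift.symm.sum_comp, Fin.sum_univ_three]
        exact comul_x'.symm }
  have h := Double.cross r p
  have hw : leftShift k (HA k a) (w k a) p = 0 := by
    apply LinearMap.ext
    intro t
    simp [leftShift, (hp t).1]
  have he : rightShift k (HA k a) (e k a) p = p := by
    rw [← leftShift_comm]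
    apply LinearMap.ext
    intro t
    simp [leftShift, (hp t).2]
  have h1 : leftShift k (HA k a) 1 p = p := leftShift_one p
  have h1' : rightShift k (HA k a) 1 p = p := by rw [← leftShift_comm, leftShift_one]
  have h2 := leftShift_comm (x k a) p
  rw [← Equiv.ulift.symm.sum_comp, Fin.sum_univ_three, ← Equiv.ulift.symm.sum_comp,
    Fin.sum_univ_three] at h
  simp only [r, Equiv.ulift_symm_down, Matrix.cons_val_zero, Matrix.cons_val_one,
    Matrix.cons_val_two, Matrix.head_cons, Matrix.tail_cons] at h
  rw [hw, he, h1, h1', h2, map_zero, mul_zero, add_zero, map_one, one_mul, mul_one] at h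
  rw [map_add, mul_add]
  rw [← eq_sub_iff_add_eq] at h
  rw [h]
  abel

/-- The cross relation for `w`. -/
theorem cross_w [Fact (a ≠ 0)] {p : Module.Dual k (HA k a)} (hp : IsGood p) :
    Double.incl k (HA k a) (w k a) * Double.dual k (HA k a) p =
      Double.dual k (HA k a) p * Double.incl k (HA k a) (w k a) := by
  let r : Coalgebra.Repr k (w k a) (ULift.{u} (Fin 2)) :=
    { index := Finset.univ
      left := fun i => ![w k a, 1] i.down
      right := fun i => ![1, w k a] i.down
      eq := by
        rw [← Equiv.ulift.symm.sum_comp, Fin.sum_univ_two]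
        exact comul_w'.symm }
  have h := Double.cross r p
  have hw : leftShift k (HA k a) (w k a) p = 0 := by
    apply LinearMap.ext
    intro t
    simp [leftShift, (hp t).1]
  have hw' : rightShift k (HA k a) (w k a) p = 0 := by rw [← leftShift_comm, hw]
  have h1 : leftShift k (HA k a) 1 p = p := leftShift_one p
  have h1' : rightShift k (HA k a) 1 p = p := by rw [← leftShift_comm, leftShift_one]
  rw [← Equiv.ulift.symm.sum_comp, Fin.sum_univ_two, ← Equiv.ulift.symm.sum_comp,
    Fin.sum_univ_two] at h
  simp only [r, Equiv.ulift_symm_down, Matrix.cons_val_zero, Matrix.cons_val_one] at h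
  rw [hw, hw', h1, h1', map_zero, mul_zero, add_zero, zero_mul, zero_add] at h
  exact h

theorem cross_y [Fact (a ≠ 0)] {p : Module.Dual k (HA k a)} (hp : IsGood p) :
    Double.incl k (HA k a) (x k a + w k a) * Double.dual k (HA k a) p =
      Double.dual k (HA k a) p * Double.incl k (HA k a) (x k a) := by
  have h1 := cross_x hp
  have h2 := cross_w hp
  rw [map_add, add_mul, h1, h2, map_add, mul_add, add_assoc,
    HA.add_self' k (Double.dual k (HA k a) p * Double.incl k (HA k a) (w k a)), add_zero]

theorem dual_sq [Fact (a ≠ 0)] :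
    Double.dual k (HA k a) xi0 * Double.dual k (HA k a) xi0 +
      a • (Double.dual k (HA k a) xi1 * Double.dual k (HA k a) xi1) = 1 := by
  rw [← Double.dual_mul, ← Double.dual_mul, ← map_smul, ← map_add, conv_xi, Double.dual_one]

/-- On a `D(H)`-module, the kernel of `x` is contained in the image of `x` if and only if the
kernel of `x + w` is contained in the image of `x + w`. -/
theorem double_iff [h0 : Fact (a ≠ 0)] (N : FDMod k (Double k (HA k a))) :
    N.restrict (Double.incl k (HA k a)) ∈ PU (k := k) (x k a) ↔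
      N.restrict (Double.incl k (HA k a)) ∈ PU (k := k) (x k a + w k a) := by
  set X := N.act (Double.incl k (HA k a) (x k a)) with hX
  set Y := N.act (Double.incl k (HA k a) (x k a + w k a)) with hY
  set T₀ := N.act (Double.dual k (HA k a) xi0) with hT₀
  set T₁ := N.act (Double.dual k (HA k a) xi1) with hT₁
  have e1 : ∀ v, X (T₀ v) = T₀ (Y v) := fun v => by
    have := DFunLike.congr_fun (congrArg N.act (cross_x (good_xi0 h0.out))) v
    simpa only [map_mul, Module.End.mul_apply] using this
  have e2 : ∀ v, X (T₁ v) = T₁ (Y v) := fun v => by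
    have := DFunLike.congr_fun (congrArg N.act (cross_x (good_xi1 h0.out))) v
    simpa only [map_mul, Module.End.mul_apply] using this
  have e3 : ∀ v, Y (T₀ v) = T₀ (X v) := fun v => by
    have := DFunLike.congr_fun (congrArg N.act (cross_y (good_xi0 h0.out))) v
    simpa only [map_mul, Module.End.mul_apply] using this
  have e4 : ∀ v, Y (T₁ v) = T₁ (X v) := fun v => by
    have := DFunLike.congr_fun (congrArg N.act (cross_y (good_xi1 h0.out))) v
    simpa only [map_mul, Module.End.mul_apply] using this
  have e5 : ∀ v, T₀ (T₀ v) + a • T₁ (T₁ v) = v := fun v => by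
    have := DFunLike.congr_fun (congrArg N.act (dual_sq (k := k) (a := a))) v
    simpa only [map_add, map_smul, map_mul, map_one, LinearMap.add_apply, LinearMap.smul_apply,
      Module.End.mul_apply, Module.End.one_apply] using this
  have key : ∀ (P Q : Module.End k N.V), (∀ v, P (T₀ v) = T₀ (Q v)) →
      (∀ v, P (T₁ v) = T₁ (Q v)) → (∀ v, Q (T₀ v) = T₀ (P v)) → (∀ v, Q (T₁ v) = T₁ (P v)) →
      (∀ m, P m = 0 → ∃ n, P n = m) → ∀ m, Q m = 0 → ∃ n, Q n = m := by
    intro P Q f1 f2 f3 f4 hP m hm
    obtain ⟨n₀, hn₀⟩ := hP (T₀ m) (by rw [f1, hm, map_zero])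
    obtain ⟨n₁, hn₁⟩ := hP (T₁ m) (by rw [f2, hm, map_zero])
    refine ⟨T₀ n₀ + a • T₁ n₁, ?_⟩
    rw [map_add, map_smul, f3, f4, hn₀, hn₁, e5]
  exact ⟨key X Y e1 e2 e3 e4, key Y X e3 e4 e1 e2⟩

theorem main_aux (ha : ∀ b : k, b * b ≠ a) [Fact (a ≠ 0)] :
    ¬ Function.Injective (balmerMap k (HA k a)) := by
  intro hinj
  have h : balmerMap k (HA k a) ⟨PU (k := k) (x k a), (datumX ha).isPrimeIdeal⟩ =
      balmerMap k (HA k a) ⟨PU (k := k) (x k a + w k a), (datumY ha).isPrimeIdeal⟩ := by
    apply Set.ext
    intro N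
    exact double_iff N
  have h1 := congrArg Subtype.val (hinj h)
  have h2 : testMod ∈ PU (k := k) (x k a + w k a) := testMod_mem
  have h3 : PU (k := k) (x k a) = PU (k := k) (x k a + w k a) := h1
  rw [← h3] at h2
  exact testMod_notMem h2

end Example

/-- The main theorem. -/
theorem main (k : Type u) [Field k] [CharP k 2] (hk : ∃ a : k, ¬ IsSquare a) :
    ∃ (H : Type u) (_ : CommRing H) (_ : HopfAlgebra k H),
      Module.finrank k H = 8 ∧ ¬ Function.Injective (balmerMap k H) := by
  obtain ⟨a, ha⟩ := hk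
  have ha' : ∀ b : k, b * b ≠ a := fun b hb => ha ⟨b, hb.symm⟩
  have h0 : Fact (a ≠ 0) := ⟨fun h => ha' 0 (by rw [h, mul_zero])⟩
  exact ⟨HA k a, inferInstance, inferInstance, HA.finrank_HA, main_aux ha'⟩

end Pool.Agent.R709.BS
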