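import Pool.Agent.R709.BS.Defs
import Pool.Agent.R709.BS.Hopf8

/-!
# A family of prime ideals in characteristic two
-/

open scoped TensorProduct

namespace Pool.Agent.R709.BS

open FDMod

universe u

/-! ### linear algebra -/

section LinAlg

variable {k : Type u} [Field k]

/-- Over a field every linear map has a generalized inverse. -/
theorem exists_ginv {V W : Type*} [AddCommGroup V] [Module k V] [AddCommGroup W] [Module k W]
    (f : V →ₗ[k] W) : ∃ g : W →ₗ[k] V, ∀ v, f (g (f v)) = f v := by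
  obtain ⟨s, hs⟩ := f.rangeRestrict.exists_rightInverse_of_surjective
    (LinearMap.range_eq_top.mpr f.surjective_rangeRestrict)
  obtain ⟨g, hg⟩ := LinearMap.exists_extend s
  refine ⟨g, fun v => ?_⟩
  have h1 : g (f v) = s (f.rangeRestrict v) := by
    rw [← hg]; rfl
  rw [h1]
  have h2 := DFunLike.congr_fun hs (f.rangeRestrict v)
  exact congrArg Subtype.val h2

variable [CharP k 2]

theorem addSelf {V : Type*} [AddCommGroup V] [Module k V] (t : V) : t + t = 0 :=
  HA.add_self' k t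

omit [CharP k 2] in
/-- If `T² = a` with `a` not a square, there is `δ` with `T δ + δ T = 1`. -/
theorem exists_delta {V : Type u} [AddCommGroup V] [Module k V] {a : k}
    (ha : ∀ b : k, b * b ≠ a) (T : Module.End k V) (hT : T * T = a • 1) :
    ∃ δ : Module.End k V, T * δ + δ * T = 1 := by
  have : Fact (∀ r : k, r ^ 2 ≠ a + 0 * r) := ⟨fun r => by
    rw [zero_mul, add_zero, pow_two]; exact ha r⟩
  let φ : QuadraticAlgebra k a 0 →ₐ[k] Module.End k V :=
    QuadraticAlgebra.lift ⟨T, by rw [hT, zero_smul, add_zero]⟩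
  let _ : Module (QuadraticAlgebra k a 0) V := Module.compHom V φ.toRingHom
  have hsm : ∀ (q : QuadraticAlgebra k a 0) (v : V), q • v = φ q v := fun _ _ => rfl
  have hφω : φ QuadraticAlgebra.omega = T := by
    simp [φ, QuadraticAlgebra.lift]
  have : IsScalarTower k (QuadraticAlgebra k a 0) V := ⟨fun c q v => by
    rw [hsm, hsm, map_smul]; rfl⟩
  let B := Module.Basis.ofVectorSpace (QuadraticAlgebra k a 0) V
  let im : QuadraticAlgebra k a 0 →ₗ[k] QuadraticAlgebra k a 0 :=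
    (Algebra.linearMap k (QuadraticAlgebra k a 0)) ∘ₗ (QuadraticAlgebra.imₗ a 0)
  have him : ∀ q : QuadraticAlgebra k a 0, QuadraticAlgebra.omega * im q +
      im (QuadraticAlgebra.omega * q) = q := by
    intro q
    ext
    · simp [im]
    · simp [im]
  let e := B.repr.restrictScalars k
  let D := Finsupp.mapRange.linearMap (α := Module.Basis.ofVectorSpaceIndex (QuadraticAlgebra k a 0) V) im
  refine ⟨e.symm.toLinearMap ∘ₗ D ∘ₗ e.toLinearMap, ?_⟩
  apply LinearMap.ext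
  intro v
  apply e.injective
  have hTe : ∀ v, e (T v) = (QuadraticAlgebra.omega : QuadraticAlgebra k a 0) • e v := by
    intro v
    have : T v = (QuadraticAlgebra.omega : QuadraticAlgebra k a 0) • v := by
      rw [hsm, hφω]
    rw [this]
    exact B.repr.map_smul _ _
  rw [LinearMap.add_apply, map_add, Module.End.mul_apply, Module.End.mul_apply, hTe]
  simp only [LinearMap.comp_apply, LinearEquiv.coe_coe, LinearEquiv.apply_symm_apply, hTe,
    Module.End.one_apply]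
  apply Finsupp.ext
  intro i
  have hD : ∀ (z : Module.Basis.ofVectorSpaceIndex (QuadraticAlgebra k a 0) V →₀
      QuadraticAlgebra k a 0), (D z) i = im (z i) := fun z => rfl
  rw [Finsupp.add_apply, Finsupp.smul_apply, smul_eq_mul, hD, hD, Finsupp.smul_apply,
    smul_eq_mul, him]

omit [CharP k 2] in
/-- A contracting homotopy for an endomorphism whose kernel is contained in its image. -/
theorem exists_homotopy {V : Type*} [AddCommGroup V] [Module k V] (f : Module.End k V)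
    (hf : ∀ v, f v = 0 → ∃ v', f v' = v) :
    ∃ h h' : Module.End k V, f * h + h' * f = 1 := by
  obtain ⟨g, hg⟩ := exists_ginv f
  refine ⟨g * (1 - g * f), g, ?_⟩
  apply LinearMap.ext
  intro v
  have h1 : f (v - g (f v)) = 0 := by rw [map_sub, hg, sub_self]
  obtain ⟨v', hv'⟩ := hf _ h1
  simp only [LinearMap.add_apply, Module.End.mul_apply, LinearMap.sub_apply,
    Module.End.one_apply]
  rw [← hv', hg, hv', sub_add_cancel]

/-- Turning a contracting homotopy into a nicer one. -/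
theorem ring_g {R : Type*} [Ring R] (U F E h h' : R) (hF : F * F = F) (hUF : U * F = F * U)
    (hUUF : U * (U * F) = 0) (h1 : U * h + h' * U = 1) (hEF : E * F = 0) (hFE : F * E = 0) :
    ∃ g, U * g + g * U = F ∧ E * g = 0 ∧ g * E = 0 := by
  have hFUU : F * (U * U) = 0 := by
    rw [← mul_assoc, ← hUF, mul_assoc, ← hUF, hUUF]
  have hUUF' : U * U * F = 0 := by rw [mul_assoc, hUUF]
  have key : U * (F * h * F) + (F * h' * F) * U = F := by
    have : F * (U * h + h' * U) * F = F := by rw [h1, mul_one, hF]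
    calc U * (F * h * F) + (F * h' * F) * U
        = (U * F) * h * F + F * h' * (F * U) := by simp only [mul_assoc]
      _ = (F * U) * h * F + F * h' * (U * F) := by rw [hUF]
      _ = F * (U * h + h' * U) * F := by simp only [mul_assoc, mul_add, add_mul]
      _ = F := this
  have k1 : U * (F * h' * F) * U = U * F := by
    have h2 : U * (U * (F * h * F) + (F * h' * F) * U) = U * F := by rw [key]
    rw [mul_add] at h2
    have h3 : U * (U * (F * h * F)) = 0 := by
      calc U * (U * (F * h * F)) = (U * (U * F)) * (h * F) := by simp only [mul_assoc]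
        _ = 0 := by rw [hUUF, zero_mul]
    rw [h3, zero_add] at h2
    rw [mul_assoc]
    exact h2
  have k2 : U * (F * h * F) * U = F * U := by
    have h2 : (U * (F * h * F) + (F * h' * F) * U) * U = F * U := by rw [key]
    rw [add_mul] at h2
    have h3 : (F * h' * F) * U * U = 0 := by
      calc (F * h' * F) * U * U = (F * h') * (F * (U * U)) := by simp only [mul_assoc]
        _ = 0 := by rw [hFUU, mul_zero]
    rw [h3, add_zero] at h2
    exact h2
  refine ⟨(F * h' * F) * U * (F * h * F), ?_, ?_, ?_⟩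
  · have e1 : U * ((F * h' * F) * U * (F * h * F)) = U * (F * h * F) := by
      calc U * ((F * h' * F) * U * (F * h * F))
          = (U * (F * h' * F) * U) * (F * h * F) := by simp only [mul_assoc]
        _ = (U * F) * (F * h * F) := by rw [k1]
        _ = U * ((F * F) * h * F) := by simp only [mul_assoc]
        _ = U * (F * h * F) := by rw [hF]
    have e2 : ((F * h' * F) * U * (F * h * F)) * U = (F * h' * F) * U := by
      calc ((F * h' * F) * U * (F * h * F)) * U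
          = (F * h' * F) * (U * (F * h * F) * U) := by simp only [mul_assoc]
        _ = (F * h' * F) * (F * U) := by rw [k2]
        _ = F * h' * (F * F) * U := by simp only [mul_assoc]
        _ = (F * h' * F) * U := by rw [hF]
    rw [e1, e2, key]
  · calc E * ((F * h' * F) * U * (F * h * F))
        = (E * F) * (h' * F * U * (F * h * F)) := by simp only [mul_assoc]
      _ = 0 := by rw [hEF, zero_mul]
  · calc (F * h' * F) * U * (F * h * F) * E
        = (F * h' * F) * U * (F * h * (F * E)) := by simp only [mul_assoc]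
      _ = 0 := by rw [hFE, mul_zero, mul_zero]

end LinAlg

/-! ### the data -/

/-- Elements `u`, `w`, `e` of a commutative bialgebra with `u² = a e`, `e² = e`,
`Δ u = u ⊗ 1 + 1 ⊗ u + e ⊗ w`, `Δ e = e ⊗ 1 + 1 ⊗ e`. -/
structure Datum (k H : Type u) [Field k] [CommRing H] [Bialgebra k H] where
  a : k
  u : H
  w : H
  e : H
  a_ne : a ≠ 0
  nonsq : ∀ b : k, b * b ≠ a
  u_sq : u * u = a • e
  e_sq : e * e = e
  comul_u : Coalgebra.comul (R := k) u = u ⊗ₜ 1 + 1 ⊗ₜ u + e ⊗ₜ w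
  comul_e : Coalgebra.comul (R := k) e = e ⊗ₜ 1 + 1 ⊗ₜ e
  counit_u : Coalgebra.counit (R := k) u = 0
  exact_u : ∀ t : H, u * t = 0 → ∃ s, u * s = t

/-- The class of all modules on which the kernel of `u` is contained in the image of `u`. -/
def PU {k H : Type u} [Field k] [Ring H] [Bialgebra k H] (u : H) : Set (FDMod k H) :=
  {M | ∀ m : M.V, M.act u m = 0 → ∃ n : M.V, M.act u n = m}

section

variable {k H : Type u} [Field k] [CommRing H] [Bialgebra k H]

/-- The action of `H ⊗ H` on `X ⊗ Y`. -/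
noncomputable def act2 (X Y : FDMod k H) :
    H ⊗[k] H →ₐ[k] Module.End k X.V ⊗[k] Module.End k Y.V :=
  Algebra.TensorProduct.map X.act Y.act

/-- The homomorphism `End X ⊗ End Y → End (X ⊗ Y)`. -/
noncomputable def toEnd (X Y : FDMod k H) :
    Module.End k X.V ⊗[k] Module.End k Y.V →ₐ[k] Module.End k (X.tensor Y).V :=
  Module.endTensorEndAlgHom (R := k) (A := k) (M := X.V) (N := Y.V)

theorem tensor_act (X Y : FDMod k H) (h : H) :
    (X.tensor Y).act h = toEnd X Y (act2 X Y (Coalgebra.comul h)) :=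
  rfl

theorem toEnd_tmul (X Y : FDMod k H) (f : Module.End k X.V) (g : Module.End k Y.V) (s : X.V)
    (t : Y.V) : toEnd X Y (f ⊗ₜ g) (s ⊗ₜ[k] t : X.V ⊗[k] Y.V) = (f s ⊗ₜ[k] g t : X.V ⊗[k] Y.V) :=
  rfl

namespace Datum

variable (D : Datum k H)

theorem act_sq (M : FDMod k H) : M.act D.u * M.act D.u = D.a • M.act D.e := by
  rw [← map_mul, D.u_sq, map_smul]

theorem act_e (M : FDMod k H) : M.act D.e * M.act D.e = M.act D.e := by
  rw [← map_mul, D.e_sq]

theorem act_e_eq (M : FDMod k H) : M.act D.e = D.a⁻¹ • (M.act D.u * M.act D.u) := by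
  rw [act_sq, smul_smul, inv_mul_cancel₀ D.a_ne, one_smul]

theorem act_comm (M : FDMod k H) (p q : H) : M.act p * M.act q = M.act q * M.act p := by
  rw [← map_mul, mul_comm, map_mul]

theorem act_e_zero {M : FDMod k H} {m : M.V} (h : M.act D.u m = 0) : M.act D.e m = 0 := by
  rw [act_e_eq, LinearMap.smul_apply, Module.End.mul_apply, h, map_zero, smul_zero]

theorem act_ue (M : FDMod k H) : M.act D.u * (M.act D.u * (1 - M.act D.e)) = 0 := by
  rw [← mul_assoc, act_sq, mul_sub, mul_one, smul_mul_assoc, act_e, sub_self]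

theorem act_ue_apply (M : FDMod k H) (m : M.V) :
    M.act D.u (M.act D.u (m - M.act D.e m)) = 0 := by
  have := DFunLike.congr_fun (D.act_ue M) m
  simpa [Module.End.mul_apply, LinearMap.sub_apply] using this

/-- Every element of the image of `u` killed by `u` is the image of an element killed
by `e` and hence by `u²`. -/
theorem lift_of_eq {M : FDMod k H} {m n : M.V} (h : M.act D.u m = 0) (hn : M.act D.u n = m) :
    M.act D.u (n - M.act D.e n) = m := by
  have h1 : M.act D.u (M.act D.e n) = M.act D.e (M.act D.u n) := by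
    have := DFunLike.congr_fun (act_comm M D.u D.e) n
    simpa [Module.End.mul_apply] using this
  rw [map_sub, hn, h1, hn, D.act_e_zero h, sub_zero]

theorem mem_summand (M N : FDMod k H) (h : IsSummand M N) (hN : N ∈ PU (k := k) D.u) :
    M ∈ PU (k := k) D.u := by
  obtain ⟨i, p, hi, hp, hpi⟩ := h
  intro m hm
  have h1 : N.act D.u (i m) = 0 := by rw [← hi, hm, map_zero]
  obtain ⟨n, hn⟩ := hN _ h1
  refine ⟨p n, ?_⟩
  rw [← hp, hn]
  exact DFunLike.congr_fun hpi m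

theorem mem_right (M₁ M₂ M₃ : FDMod k H) (i : M₁.V →ₗ[k] M₂.V) (p : M₂.V →ₗ[k] M₃.V)
    (h : IsSES M₁ M₂ M₃ i p) (h1 : M₁ ∈ PU (k := k) D.u) (h2 : M₂ ∈ PU (k := k) D.u) :
    M₃ ∈ PU (k := k) D.u := by
  obtain ⟨hi, hp, inj, ex, surj⟩ := h
  intro c hc
  obtain ⟨b₀, hb₀⟩ := surj c
  have hc' := D.act_e_zero hc
  have hb : p (b₀ - M₂.act D.e b₀) = c := by rw [map_sub, hp, hb₀, hc', sub_zero]
  have hub : p (M₂.act D.u (b₀ - M₂.act D.e b₀)) = 0 := by rw [hp, hb, hc]
  obtain ⟨a', ha'⟩ := (ex _).1 hub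
  have hua : M₁.act D.u a' = 0 := by
    apply inj
    rw [hi, ha', D.act_ue_apply, map_zero]
  obtain ⟨a'', ha''⟩ := h1 _ hua
  have h3 : M₂.act D.u ((b₀ - M₂.act D.e b₀) - i a'') = 0 := by
    rw [map_sub, ← hi, ha'', ha', sub_self]
  obtain ⟨b'', hb''⟩ := h2 _ h3
  refine ⟨p b'', ?_⟩
  rw [← hp, hb'', map_sub, hb, ex.apply_apply_eq_zero, sub_zero]

theorem mem_middle (M₁ M₂ M₃ : FDMod k H) (i : M₁.V →ₗ[k] M₂.V) (p : M₂.V →ₗ[k] M₃.V)
    (h : IsSES M₁ M₂ M₃ i p) (h1 : M₁ ∈ PU (k := k) D.u) (h3 : M₃ ∈ PU (k := k) D.u) :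
    M₂ ∈ PU (k := k) D.u := by
  obtain ⟨hi, hp, inj, ex, surj⟩ := h
  intro b hb
  have hpb : M₃.act D.u (p b) = 0 := by rw [← hp, hb, map_zero]
  obtain ⟨c', hc'⟩ := h3 _ hpb
  obtain ⟨b', hb'⟩ := surj c'
  have hc'' := D.lift_of_eq hpb hc'
  have h4 : p (b - M₂.act D.u (b' - M₂.act D.e b')) = 0 := by
    rw [map_sub, hp, map_sub, hp, hb', hc'', sub_self]
  obtain ⟨a', ha'⟩ := (ex _).1 h4
  have hua : M₁.act D.u a' = 0 := by
    apply inj
    rw [hi, ha', map_sub, hb, D.act_ue_apply, sub_zero, map_zero]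
  obtain ⟨a'', ha''⟩ := h1 _ hua
  refine ⟨(b' - M₂.act D.e b') + i a'', ?_⟩
  rw [map_add, ← hi, ha'', ha']
  abel

theorem mem_left (M₁ M₂ M₃ : FDMod k H) (i : M₁.V →ₗ[k] M₂.V) (p : M₂.V →ₗ[k] M₃.V)
    (h : IsSES M₁ M₂ M₃ i p) (h2 : M₂ ∈ PU (k := k) D.u) (h3 : M₃ ∈ PU (k := k) D.u) :
    M₁ ∈ PU (k := k) D.u := by
  obtain ⟨hi, hp, inj, ex, surj⟩ := h
  intro m hm
  have him : M₂.act D.u (i m) = 0 := by rw [← hi, hm, map_zero]
  obtain ⟨b₀, hb₀⟩ := h2 _ him
  have hb := D.lift_of_eq him hb₀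
  set b := b₀ - M₂.act D.e b₀ with hbdef
  have hpb : M₃.act D.u (p b) = 0 := by rw [← hp, hb, ex.apply_apply_eq_zero]
  obtain ⟨c', hc'⟩ := h3 _ hpb
  have hc'' := D.lift_of_eq hpb hc'
  obtain ⟨b', hb'⟩ := surj c'
  have e1 : p (b' - M₂.act D.e b') = c' - M₃.act D.e c' := by rw [map_sub, hp, hb']
  have h4 : p (b - M₂.act D.u (b' - M₂.act D.e b')) = 0 := by
    rw [map_sub, hp _ (b' - M₂.act D.e b'), e1, hc'', sub_self]
  obtain ⟨a', ha'⟩ := (ex _).1 h4
  refine ⟨a', ?_⟩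
  apply inj
  rw [hi, ha', map_sub, hb, D.act_ue_apply, sub_zero]

/-- On every module there is `δ` with `u δ + δ u = e`, `e δ = δ = δ e`. -/
theorem exists_delta (M : FDMod k H) :
    ∃ δ : Module.End k M.V, M.act D.u * δ + δ * M.act D.u = M.act D.e ∧
      M.act D.e * δ = δ ∧ δ * M.act D.e = δ := by
  set U := M.act D.u with hU
  set E := M.act D.e with hE
  have hEE : ∀ v, E (E v) = E v := fun v => DFunLike.congr_fun (D.act_e M) v
  have hUE : ∀ v, U (E v) = E (U v) := fun v => DFunLike.congr_fun (act_comm M D.u D.e) v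
  have hUU : ∀ v, U (U v) = D.a • E v := fun v => DFunLike.congr_fun (D.act_sq M) v
  have hmem : ∀ v ∈ LinearMap.range E, U v ∈ LinearMap.range E := by
    rintro v ⟨v', rfl⟩
    exact ⟨U v', (hUE v').symm⟩
  have hfix : ∀ v : LinearMap.range E, E v.1 = v.1 := by
    rintro ⟨v, ⟨v', rfl⟩⟩
    exact hEE v'
  let T : Module.End k (LinearMap.range E) := U.restrict hmem
  have hT : T * T = D.a • 1 := by
    apply LinearMap.ext
    intro v
    apply Subtype.ext
    change U (U v.1) = D.a • v.1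
    rw [hUU, hfix]
  obtain ⟨δ, hδ⟩ := BS.exists_delta D.nonsq T hT
  refine ⟨(LinearMap.range E).subtype ∘ₗ δ ∘ₗ E.rangeRestrict, ?_, ?_, ?_⟩
  · apply LinearMap.ext
    intro v
    have h1 := congrArg Subtype.val (DFunLike.congr_fun hδ (E.rangeRestrict v))
    have h2 : E.rangeRestrict (U v) = T (E.rangeRestrict v) := by
      apply Subtype.ext
      exact (hUE v).symm
    change U (δ (E.rangeRestrict v)).1 + (δ (E.rangeRestrict (U v))).1 = E v
    rw [h2]
    exact h1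
  · apply LinearMap.ext
    intro v
    exact hfix _
  · apply LinearMap.ext
    intro v
    have h2 : E.rangeRestrict (E v) = E.rangeRestrict v := Subtype.ext (hEE v)
    change (δ (E.rangeRestrict (E v))).1 = (δ (E.rangeRestrict v)).1
    rw [h2]

variable [CharP k 2]

/-- On a module of `PU` there is `g` with `u g + g u = 1 + e`, `e g = 0 = g e`. -/
theorem exists_g {M : FDMod k H} (hM : M ∈ PU (k := k) D.u) :
    ∃ g : Module.End k M.V, M.act D.u * g + g * M.act D.u = 1 + M.act D.e ∧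
      M.act D.e * g = 0 ∧ g * M.act D.e = 0 := by
  obtain ⟨h, h', hh⟩ := exists_homotopy (M.act D.u) hM
  have c2 : M.act D.e + M.act D.e = 0 := addSelf (k := k) _
  have hE := D.act_e M
  have hc := act_comm M D.u D.e
  refine ring_g (M.act D.u) (1 + M.act D.e) (M.act D.e) h h' ?_ ?_ ?_ hh ?_ ?_
  · rw [add_mul, one_mul, mul_add, mul_one, hE, c2, add_zero]
  · rw [mul_add, add_mul, mul_one, one_mul, hc]
  · have : (1 + M.act D.e) = 1 - M.act D.e := by
      rw [eq_sub_iff_add_eq, add_assoc, c2, add_zero]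
    rw [this]
    exact D.act_ue M
  · rw [mul_add, mul_one, hE, c2]
  · rw [add_mul, one_mul, hE, c2]

omit [CharP k 2] in
theorem mem_of_homotopy (M : FDMod k H) (h : Module.End k M.V)
    (hh : M.act D.u * h + h * M.act D.u = 1 + M.act D.e) : M ∈ PU (k := k) D.u := by
  intro m hm
  refine ⟨h m, ?_⟩
  have := DFunLike.congr_fun hh m
  simp only [LinearMap.add_apply, Module.End.mul_apply, Module.End.one_apply, hm, map_zero,
    add_zero, D.act_e_zero hm] at this
  exact this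

omit [CharP k 2] in
theorem act2_u (X Y : FDMod k H) : act2 X Y (Coalgebra.comul D.u) =
    X.act D.u ⊗ₜ 1 + 1 ⊗ₜ Y.act D.u + X.act D.e ⊗ₜ Y.act D.w := by
  rw [D.comul_u]
  simp [act2]

omit [CharP k 2] in
theorem act2_e (X Y : FDMod k H) : act2 X Y (Coalgebra.comul D.e) =
    X.act D.e ⊗ₜ 1 + 1 ⊗ₜ Y.act D.e := by
  rw [D.comul_e]
  simp [act2]

omit [CharP k 2] in
theorem tensor_mem_of (X Y : FDMod k H) (η : Module.End k X.V ⊗[k] Module.End k Y.V)
    (h : act2 X Y (Coalgebra.comul D.u) * η + η * act2 X Y (Coalgebra.comul D.u) =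
      1 + act2 X Y (Coalgebra.comul D.e)) : X.tensor Y ∈ PU (k := k) D.u := by
  refine D.mem_of_homotopy _ (toEnd X Y η) ?_
  rw [tensor_act, tensor_act, ← map_mul, ← map_mul, ← map_add, h, map_add, map_one]

theorem tensor_mem_left (X M : FDMod k H) (hM : M ∈ PU (k := k) D.u) :
    X.tensor M ∈ PU (k := k) D.u := by
  obtain ⟨g, hg, hEg, hgE⟩ := D.exists_g hM
  obtain ⟨δ, hδ, hEδ, hδE⟩ := D.exists_delta X
  have hcX := act_comm X D.u D.e
  have hcM := act_comm M D.u D.e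
  have hcW := act_comm M D.w D.e
  refine D.tensor_mem_of X M (1 ⊗ₜ g + X.act D.e ⊗ₜ g + δ ⊗ₜ M.act D.e) ?_
  rw [D.act2_u, D.act2_e]
  simp only [mul_add, add_mul, Algebra.TensorProduct.tmul_mul_tmul, mul_one, one_mul]
  rw [D.act_e X, hEδ, hδE, hcX, hcM, hcW, Algebra.TensorProduct.one_def]
  have c1 := addSelf (k := k) (X.act D.u ⊗ₜ[k] g)
  have c2 := addSelf (k := k) ((X.act D.e * X.act D.u) ⊗ₜ[k] g)
  have c3 := addSelf (k := k) (δ ⊗ₜ[k] (M.act D.e * M.act D.u))
  have c4 := addSelf (k := k) (X.act D.e ⊗ₜ[k] (M.act D.w * g))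
  have c5 := addSelf (k := k) (X.act D.e ⊗ₜ[k] (g * M.act D.w))
  have c6 := addSelf (k := k) (δ ⊗ₜ[k] (M.act D.e * M.act D.w))
  have c7 := addSelf (k := k) (X.act D.e ⊗ₜ[k] M.act D.e)
  have k1 : (X.act D.u * δ) ⊗ₜ[k] M.act D.e + (δ * X.act D.u) ⊗ₜ[k] M.act D.e =
      X.act D.e ⊗ₜ[k] M.act D.e := by rw [← TensorProduct.add_tmul, hδ]
  have k2 : (1 : Module.End k X.V) ⊗ₜ[k] (M.act D.u * g) + 1 ⊗ₜ[k] (g * M.act D.u) =
      1 ⊗ₜ[k] 1 + 1 ⊗ₜ[k] M.act D.e := by
    rw [← TensorProduct.tmul_add, hg, TensorProduct.tmul_add]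
  have k3 : X.act D.e ⊗ₜ[k] (M.act D.u * g) + X.act D.e ⊗ₜ[k] (g * M.act D.u) =
      X.act D.e ⊗ₜ[k] 1 + X.act D.e ⊗ₜ[k] M.act D.e := by
    rw [← TensorProduct.tmul_add, hg, TensorProduct.tmul_add]
  trans (X.act D.u ⊗ₜ[k] g + X.act D.u ⊗ₜ[k] g) +
    ((X.act D.e * X.act D.u) ⊗ₜ[k] g + (X.act D.e * X.act D.u) ⊗ₜ[k] g) +
    ((X.act D.u * δ) ⊗ₜ[k] M.act D.e + (δ * X.act D.u) ⊗ₜ[k] M.act D.e) +
    ((1 : Module.End k X.V) ⊗ₜ[k] (M.act D.u * g) + 1 ⊗ₜ[k] (g * M.act D.u)) +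
    (X.act D.e ⊗ₜ[k] (M.act D.u * g) + X.act D.e ⊗ₜ[k] (g * M.act D.u)) +
    (δ ⊗ₜ[k] (M.act D.e * M.act D.u) + δ ⊗ₜ[k] (M.act D.e * M.act D.u)) +
    (X.act D.e ⊗ₜ[k] (M.act D.w * g) + X.act D.e ⊗ₜ[k] (M.act D.w * g)) +
    (X.act D.e ⊗ₜ[k] (g * M.act D.w) + X.act D.e ⊗ₜ[k] (g * M.act D.w)) +
    (δ ⊗ₜ[k] (M.act D.e * M.act D.w) + δ ⊗ₜ[k] (M.act D.e * M.act D.w))
  · abel
  · rw [c1, c2, c3, c4, c5, c6, k1, k2, k3]
    trans (1 : Module.End k X.V) ⊗ₜ[k] (1 : Module.End k M.V) + (X.act D.e ⊗ₜ[k] 1 +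
      1 ⊗ₜ[k] M.act D.e) + (X.act D.e ⊗ₜ[k] M.act D.e + X.act D.e ⊗ₜ[k] M.act D.e)
    · abel
    · rw [c7, add_zero]

theorem tensor_mem_right (X M : FDMod k H) (hM : M ∈ PU (k := k) D.u) :
    M.tensor X ∈ PU (k := k) D.u := by
  obtain ⟨g, hg, hEg, hgE⟩ := D.exists_g hM
  obtain ⟨δ, hδ, hEδ, hδE⟩ := D.exists_delta M
  have hcX := act_comm X D.u D.e
  have hcM := act_comm M D.u D.e
  have hcW := act_comm X D.w D.e
  refine D.tensor_mem_of M X (g ⊗ₜ 1 + g ⊗ₜ X.act D.e + δ ⊗ₜ X.act D.e) ?_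
  rw [D.act2_u, D.act2_e]
  simp only [mul_add, add_mul, Algebra.TensorProduct.tmul_mul_tmul, mul_one, one_mul]
  rw [hEδ, hδE, hcX, hcW, hEg, hgE, Algebra.TensorProduct.one_def]
  simp only [TensorProduct.zero_tmul, add_zero]
  have c1 := addSelf (k := k) (g ⊗ₜ[k] X.act D.u)
  have c2 := addSelf (k := k) (g ⊗ₜ[k] (X.act D.e * X.act D.u))
  have c3 := addSelf (k := k) (δ ⊗ₜ[k] (X.act D.e * X.act D.u))
  have c6 := addSelf (k := k) (δ ⊗ₜ[k] (X.act D.e * X.act D.w))
  have c7 := addSelf (k := k) (M.act D.e ⊗ₜ[k] X.act D.e)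
  have k1 : (M.act D.u * δ) ⊗ₜ[k] X.act D.e + (δ * M.act D.u) ⊗ₜ[k] X.act D.e =
      M.act D.e ⊗ₜ[k] X.act D.e := by rw [← TensorProduct.add_tmul, hδ]
  have k2 : (M.act D.u * g) ⊗ₜ[k] (1 : Module.End k X.V) + (g * M.act D.u) ⊗ₜ[k] 1 =
      1 ⊗ₜ[k] 1 + M.act D.e ⊗ₜ[k] 1 := by
    rw [← TensorProduct.add_tmul, hg, TensorProduct.add_tmul]
  have k3 : (M.act D.u * g) ⊗ₜ[k] X.act D.e + (g * M.act D.u) ⊗ₜ[k] X.act D.e =
      1 ⊗ₜ[k] X.act D.e + M.act D.e ⊗ₜ[k] X.act D.e := by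
    rw [← TensorProduct.add_tmul, hg, TensorProduct.add_tmul]
  trans (g ⊗ₜ[k] X.act D.u + g ⊗ₜ[k] X.act D.u) +
    (g ⊗ₜ[k] (X.act D.e * X.act D.u) + g ⊗ₜ[k] (X.act D.e * X.act D.u)) +
    (δ ⊗ₜ[k] (X.act D.e * X.act D.u) + δ ⊗ₜ[k] (X.act D.e * X.act D.u)) +
    (δ ⊗ₜ[k] (X.act D.e * X.act D.w) + δ ⊗ₜ[k] (X.act D.e * X.act D.w)) +
    ((M.act D.u * δ) ⊗ₜ[k] X.act D.e + (δ * M.act D.u) ⊗ₜ[k] X.act D.e) +
    ((M.act D.u * g) ⊗ₜ[k] (1 : Module.End k X.V) + (g * M.act D.u) ⊗ₜ[k] 1) +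
    ((M.act D.u * g) ⊗ₜ[k] X.act D.e + (g * M.act D.u) ⊗ₜ[k] X.act D.e)
  · abel
  · rw [c1, c2, c3, c6, k1, k2, k3]
    trans (1 : Module.End k M.V) ⊗ₜ[k] (1 : Module.End k X.V) + (M.act D.e ⊗ₜ[k] 1 +
      1 ⊗ₜ[k] X.act D.e) + (M.act D.e ⊗ₜ[k] X.act D.e + M.act D.e ⊗ₜ[k] X.act D.e)
    · abel
    · rw [c7, add_zero]

omit [CharP k 2] in
theorem unit_notMem : FDMod.unit k H ∉ PU (k := k) D.u := by
  intro h
  have hz : ∀ t : k, (FDMod.unit k H).act D.u t = 0 := by
    intro t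
    change (Coalgebra.counit (R := k) D.u) * t = 0
    rw [D.counit_u, zero_mul]
  obtain ⟨n, hn⟩ := h (1 : k) (hz (1 : k))
  rw [hz n] at hn
  exact zero_ne_one (α := k) hn

omit [CharP k 2] in
theorem exists_form {M : FDMod k H} (hM : M ∉ PU (k := k) D.u) :
    ∃ (m : M.V) (φ : M.V →ₗ[k] k), M.act D.u m = 0 ∧ φ m = 1 ∧ ∀ n, φ (M.act D.u n) = 0 := by
  unfold PU at hM
  simp only [Set.mem_ofPred_eq, not_forall, not_exists] at hM
  obtain ⟨m, hm, hn⟩ := hM
  have hm' : m ∉ LinearMap.range (M.act D.u) := by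
    rintro ⟨n, hn'⟩
    exact hn n hn'
  obtain ⟨f, hf, hf'⟩ := Submodule.exists_dual_map_eq_bot_of_notMem hm' inferInstance
  refine ⟨m, (f m)⁻¹ • f, hm, ?_, ?_⟩
  · rw [LinearMap.smul_apply, smul_eq_mul, inv_mul_cancel₀ hf]
  · intro n
    have : f (M.act D.u n) ∈ (LinearMap.range (M.act D.u)).map f :=
      Submodule.mem_map_of_mem ⟨n, rfl⟩
    rw [hf', Submodule.mem_bot] at this
    rw [LinearMap.smul_apply, this, smul_zero]

omit [CharP k 2] in
theorem prime_aux {A B : FDMod k H} (hA : A ∉ PU (k := k) D.u) (hB : B ∉ PU (k := k) D.u) :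
    A.tensor B ∉ PU (k := k) D.u := by
  obtain ⟨m, φ, hm, hφ, hφ'⟩ := D.exists_form hA
  obtain ⟨n, ψ, hn, hψ, hψ'⟩ := D.exists_form hB
  intro h
  have hform : ∀ (s : A.V) (t : B.V), (A.tensor B).act D.u (s ⊗ₜ[k] t : A.V ⊗[k] B.V) =
      (A.act D.u s ⊗ₜ[k] t + s ⊗ₜ[k] B.act D.u t + A.act D.e s ⊗ₜ[k] B.act D.w t :
        A.V ⊗[k] B.V) := by
    intro s t
    rw [tensor_act, D.act2_u, map_add, map_add]
    rfl
  have h1 : (A.tensor B).act D.u (m ⊗ₜ[k] n : A.V ⊗[k] B.V) = 0 := by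
    rw [hform, hm, hn, D.act_e_zero hm, TensorProduct.zero_tmul, TensorProduct.tmul_zero,
      TensorProduct.zero_tmul, add_zero, add_zero]
    rfl
  obtain ⟨t, ht⟩ := h _ h1
  let Φ : A.V ⊗[k] B.V →ₗ[k] k := LinearMap.mul' k k ∘ₗ TensorProduct.map φ ψ
  let TU : A.V ⊗[k] B.V →ₗ[k] A.V ⊗[k] B.V := (A.tensor B).act D.u
  have hΦ0 : Φ ∘ₗ TU = 0 := by
    apply TensorProduct.ext'
    intro s t
    have hs : TU (s ⊗ₜ[k] t) =
      (A.act D.u s ⊗ₜ[k] t + s ⊗ₜ[k] B.act D.u t + A.act D.e s ⊗ₜ[k] B.act D.w t) := hform s t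
    rw [LinearMap.comp_apply, hs, map_add, map_add]
    simp only [Φ, LinearMap.comp_apply, TensorProduct.map_tmul, LinearMap.mul'_apply]
    have he : φ (A.act D.e s) = 0 := by
      rw [D.act_e_eq, LinearMap.smul_apply, Module.End.mul_apply, map_smul, hφ', smul_zero]
    rw [hφ', hψ', he, zero_mul, mul_zero, zero_mul, add_zero, add_zero]
    rfl
  have hΦ : ∀ t : A.V ⊗[k] B.V, Φ ((A.tensor B).act D.u t) = 0 := by
    intro t
    exact DFunLike.congr_fun hΦ0 t
  have h2 := hΦ t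
  rw [ht] at h2
  have h3 : Φ (m ⊗ₜ[k] n) = 1 := by
    simp only [Φ, LinearMap.comp_apply, TensorProduct.map_tmul, LinearMap.mul'_apply, hφ, hψ,
      mul_one]
  rw [h3] at h2
  exact one_ne_zero h2

/-- The free module `H ⊗ V` on a finite-dimensional vector space. -/
noncomputable def free [FiniteDimensional k H] (V : Type u) [AddCommGroup V] [Module k V]
    [FiniteDimensional k V] : FDMod k H where
  V := H ⊗[k] V
  act := (Module.endTensorEndAlgHom (R := k) (A := k) (M := H) (N := V)).comp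
    ((Algebra.TensorProduct.includeLeft).comp (Algebra.lmul k H))

omit [CharP k 2] in
theorem free_mem [FiniteDimensional k H] (V : Type u) [AddCommGroup V] [Module k V]
    [FiniteDimensional k V] : (free V : FDMod k H) ∈ PU (k := k) D.u := by
  obtain ⟨h, h', hh⟩ := exists_homotopy (LinearMap.mulLeft k D.u) D.exact_u
  have h1 : (TensorProduct.map (LinearMap.mulLeft k D.u) (LinearMap.id : V →ₗ[k] V)) ∘ₗ
      (TensorProduct.map h (LinearMap.id : V →ₗ[k] V)) +
      (TensorProduct.map h' (LinearMap.id : V →ₗ[k] V)) ∘ₗ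
      (TensorProduct.map (LinearMap.mulLeft k D.u) (LinearMap.id : V →ₗ[k] V)) =
      LinearMap.id := by
    rw [← TensorProduct.map_comp, ← TensorProduct.map_comp, ← TensorProduct.map_add_left]
    have : (LinearMap.mulLeft k D.u) ∘ₗ h + h' ∘ₗ (LinearMap.mulLeft k D.u) = LinearMap.id := hh
    rw [this, LinearMap.comp_id, TensorProduct.map_id]
  have key : ∀ m : H ⊗[k] V,
      (TensorProduct.map (LinearMap.mulLeft k D.u) (LinearMap.id : V →ₗ[k] V)) m = 0 →
      ∃ n, (TensorProduct.map (LinearMap.mulLeft k D.u) (LinearMap.id : V →ₗ[k] V)) n = m := by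
    intro m h0
    refine ⟨(TensorProduct.map h (LinearMap.id : V →ₗ[k] V)) m, ?_⟩
    have h2 := DFunLike.congr_fun h1 m
    simp only [LinearMap.add_apply, LinearMap.comp_apply, LinearMap.id_apply] at h2
    rw [h0, map_zero, add_zero] at h2
    exact h2
  exact key

omit [CharP k 2] in
theorem projective_mem [FiniteDimensional k H] (P : FDMod k H) (hP : P.IsProjective) :
    P ∈ PU (k := k) D.u := by
  let g : (free P.V : FDMod k H).V →ₗ[k] P.V :=
    TensorProduct.lift (P.act.toLinearMap : H →ₗ[k] P.V →ₗ[k] P.V)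
  have hg : ∀ (h : H) (v : P.V), g (h ⊗ₜ[k] v : H ⊗[k] P.V) = P.act h v := by
    intro h v
    exact TensorProduct.lift.tmul _ _
  have hhom : IsHom (free P.V) P g := by
    intro h
    let g' : H ⊗[k] P.V →ₗ[k] P.V := g
    have h1 : g' ∘ₗ (TensorProduct.map (LinearMap.mulLeft k h) (LinearMap.id : P.V →ₗ[k] P.V)) =
        P.act h ∘ₗ g' := by
      apply TensorProduct.ext'
      intro s t
      rw [LinearMap.comp_apply, LinearMap.comp_apply, TensorProduct.map_tmul]
      change g _ = P.act h (g _)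
      rw [hg, hg, LinearMap.id_apply, LinearMap.mulLeft_apply, map_mul]
      rfl
    intro t
    exact DFunLike.congr_fun h1 t
  have hsurj : Function.Surjective g := by
    intro v
    refine ⟨(1 ⊗ₜ[k] v : H ⊗[k] P.V), ?_⟩
    rw [hg, map_one]
    rfl
  obtain ⟨h, hh, hgh⟩ := hP (free P.V) P g LinearMap.id hhom hsurj (fun _ _ => rfl)
  exact D.mem_summand P (free P.V) ⟨h, g, hh, hhom, hgh⟩ (D.free_mem P.V)

theorem isPrimeIdeal [FiniteDimensional k H] : IsPrimeIdeal (PU (k := k) D.u) where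
  projective_mem := D.projective_mem
  summand_mem := D.mem_summand
  mem_of_left_of_middle := D.mem_right
  mem_of_left_of_right := D.mem_middle
  mem_of_middle_of_right := D.mem_left
  tensor_mem_left := D.tensor_mem_left
  tensor_mem_right := D.tensor_mem_right
  proper := ⟨_, D.unit_notMem⟩
  prime := by
    intro A B h
    by_contra hcon
    rw [not_or] at hcon
    exact D.prime_aux (D.prime_aux hcon.1 D.unit_notMem) hcon.2 (h (FDMod.unit k H))

end Datum

end

end Pool.Agent.R709.BS
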